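import Pool.Agent.J6H65.Hilb4.Geo5

set_option autoImplicit false

open AlgebraicGeometry CategoryTheory

namespace Pool.Agent.Results.MP_26f572_ag.HilbFour

open Pool.Agent.J6H65.Hilb4

/-- The Hilbert scheme of four points of a smooth quasi-projective complex scheme of arbitrary
dimension is normal and Cohen–Macaulay. -/
theorem result (X : Over SpecC) (hX : IsQuasiProjective X) (hs : Smooth X.hom) (H : Over SpecC)
    (F : Family 4 X H) (hF : F.IsUniversal) :
    IsNormalScheme H.left ∧ IsCohenMacaulayScheme H.left :=
  main_quasiProjective hX hs F hF

end Pool.Agent.Results.MP_26f572_ag.HilbFour
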